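import Mathlib

set_option autoImplicit false

namespace Pool.Agent.Results.MP_da50b6_co.TreewidthThree

/-- `c 0, c 1, …, c (m-1)` are the vertices of a directed cycle of length `m ≥ 3`
with arc relation `A`. -/
def IsDirectedCycle {V : Type*} (A : V → V → Prop) (m : ℕ) (c : ℕ → V) : Prop :=
  3 ≤ m ∧ (∀ s < m, ∀ t < m, c s = c t → s = t) ∧
    (∀ t, t + 1 < m → A (c t) (c (t + 1))) ∧ A (c (m - 1)) (c 0)

/-- Acyclic `k`-dicolouring: no directed cycle is monochromatic, and no directed cycle of even
length alternates between two colours. -/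
def IsAcyclicDicolouring {V : Type*} (A : V → V → Prop) (k : ℕ) (φ : V → Fin k) : Prop :=
  ∀ (m : ℕ) (c : ℕ → V), IsDirectedCycle A m c →
    (¬ ∃ i, ∀ t < m, φ (c t) = i) ∧
    ¬ (Even m ∧ ∃ i j, i ≠ j ∧ ∀ t < m, φ (c t) = if Even t then i else j)

/-- `G` has treewidth at most `k`, in the form of partial `k`-trees: `G` is a spanning subgraph of a
graph `H` whose vertices can be ordered so that the earlier `H`-neighbours of each vertex form a
clique of `H` with at most `k` vertices. -/
def TreewidthAtMost {V : Type*} (G : SimpleGraph V) (k : ℕ) : Prop :=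
  ∃ (H : SimpleGraph V) (ord : V → ℕ), G ≤ H ∧ Function.Injective ord ∧
    ∀ v, H.IsClique {u | H.Adj u v ∧ ord u < ord v} ∧
      {u | H.Adj u v ∧ ord u < ord v}.Finite ∧ {u | H.Adj u v ∧ ord u < ord v}.ncard ≤ k

theorem third_ne (i k : Fin 3) (h : i ≠ k) : -(i + k) ≠ k := by
  revert i k; decide

theorem third_ne' (i k : Fin 3) (h : i ≠ k) : -(i + k) ≠ i := by
  revert i k; decide

/-- the finite choice for a rainbow triangle -/
theorem rainbow_choice : ∀ (s0 s1 s2 a b c : Bool),
    ∃ (k : Fin 3) (u0 u1 u2 : Bool),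
      (fun j : Fin 3 => if j = 0 then u0 else if j = 1 then u1 else u2) (k + 1) ≠
        (fun j : Fin 3 => if j = 0 then u0 else if j = 1 then u1 else u2) (k + 2) ∧
      ∀ i : Fin 3, i ≠ k →
        ((if i = 0 then s0 else if i = 1 then s1 else s2) = true →
          (fun j : Fin 3 => if j = 0 then u0 else if j = 1 then u1 else u2) (-(i + k)) = false →
          (if i = 0 ∧ k = 1 then a else if i = 1 ∧ k = 0 then !a else
            if i = 0 ∧ k = 2 then b else if i = 2 ∧ k = 0 then !b else
            if i = 1 ∧ k = 2 then c else !c) = true) ∧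
        ((if i = 0 then s0 else if i = 1 then s1 else s2) = false →
          (fun j : Fin 3 => if j = 0 then u0 else if j = 1 then u1 else u2) (-(i + k)) = true →
          (if i = 0 ∧ k = 1 then a else if i = 1 ∧ k = 0 then !a else
            if i = 0 ∧ k = 2 then b else if i = 2 ∧ k = 0 then !b else
            if i = 1 ∧ k = 2 then c else !c) = false) := by
  decide

theorem rainbow_choice' (s : Fin 3 → Bool) (t : Fin 3 → Fin 3 → Bool)
    (ht : ∀ i k, i ≠ k → t k i = !t i k) :
    ∃ (k : Fin 3) (up : Fin 3 → Bool), up (k + 1) ≠ up (k + 2) ∧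
      ∀ i, i ≠ k → (s i = true → up (-(i + k)) = false → t i k = true) ∧
        (s i = false → up (-(i + k)) = true → t i k = false) := by
  obtain ⟨k, u0, u1, u2, h1, h2⟩ := rainbow_choice (s 0) (s 1) (s 2) (t 0 1) (t 0 2) (t 1 2)
  refine ⟨k, fun j : Fin 3 => if j = 0 then u0 else if j = 1 then u1 else u2, h1, ?_⟩
  intro i hik
  have h3 := h2 i hik
  have e1 : (if i = 0 then s 0 else if i = 1 then s 1 else s 2) = s i := by
    fin_cases i <;> rfl
  have t10 := ht 0 1 (by decide)
  have t20 := ht 0 2 (by decide)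
  have t21 := ht 1 2 (by decide)
  have e2 : (if i = 0 ∧ k = 1 then t 0 1 else if i = 1 ∧ k = 0 then !(t 0 1) else
            if i = 0 ∧ k = 2 then t 0 2 else if i = 2 ∧ k = 0 then !(t 0 2) else
            if i = 1 ∧ k = 2 then t 1 2 else !(t 1 2)) = t i k := by
    rw [← t10, ← t20, ← t21]
    fin_cases i <;> fin_cases k <;> first | rfl | exact absurd rfl hik
  rw [e1, e2] at h3
  exact h3

theorem choose_step {V : Type*} (T : Finset V) (hT : T.card ≤ 3) (φ : V → Fin 3)
    (r : Fin 3 → V → ℚ) (s : V → Prop)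
    (h1 : ∀ x ∈ T, ∀ y ∈ T, φ x ≠ φ y → r (-(φ x + φ y)) x ≠ r (-(φ x + φ y)) y)
    (h2 : ∀ x ∈ T, ∀ y ∈ T, x ≠ y → φ x = φ y →
      (r (φ x + 1) x < r (φ x + 1) y ∧ r (φ x + 2) y < r (φ x + 2) x) ∨
      (r (φ x + 1) y < r (φ x + 1) x ∧ r (φ x + 2) x < r (φ x + 2) y))
    (h3 : ∀ x ∈ T, ∀ y ∈ T, ∀ z ∈ T, x ≠ y → y ≠ z → x ≠ z → φ x = φ y → φ y ≠ φ z) :
    ∃ (k : Fin 3) (up : Fin 3 → Prop), (up (k + 1) ↔ ¬ up (k + 2)) ∧
      (∀ x ∈ T, ∀ y ∈ T, φ x = k → φ y = k → x = y) ∧
      (∀ x ∈ T, ∀ y ∈ T, φ x = φ y → φ x ≠ k → s x → ¬ s y →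
        r (-(φ x + k)) x < r (-(φ x + k)) y) ∧
      (∀ x ∈ T, ∀ y ∈ T, φ x ≠ k → φ y = k → s x → ¬ up (-(φ x + k)) →
        r (-(φ x + k)) x < r (-(φ x + k)) y) ∧
      (∀ x ∈ T, ∀ y ∈ T, φ x ≠ k → φ y = k → ¬ s x → up (-(φ x + k)) →
        r (-(φ x + k)) y < r (-(φ x + k)) x) := by
  classical
  by_cases hdup : ∃ a ∈ T, ∃ a' ∈ T, a ≠ a' ∧ φ a = φ a'
  · obtain ⟨a, ha, a', ha', haa', hφ⟩ := hdup
    -- vertices of colour `φ a` are `a`, `a'`
    have hi : ∀ x ∈ T, φ x = φ a → x = a ∨ x = a' := by
      intro x hx hxa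
      by_contra hcon
      push Not at hcon
      exact h3 a ha a' ha' x hx haa' (Ne.symm hcon.2) (Ne.symm hcon.1) hφ
        (by rw [← hφ, hxa])
    have hni : ∀ x ∈ T, ∀ y ∈ T, φ x ≠ φ a → φ y ≠ φ a → x = y := by
      intro x hx y hy hxa hya
      by_contra hxy
      have hsub : ({a, a', x, y} : Finset V) ⊆ T := by
        intro z hz
        simp only [Finset.mem_insert, Finset.mem_singleton] at hz
        rcases hz with h | h | h | h <;> rw [h] <;> assumption
      have hcard : ({a, a', x, y} : Finset V).card = 4 := by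
        have n1 : a ≠ x := fun h => hxa (by rw [h])
        have n2 : a ≠ y := fun h => hya (by rw [h])
        have n3 : a' ≠ x := fun h => hxa (by rw [← h, hφ])
        have n4 : a' ≠ y := fun h => hya (by rw [← h, hφ])
        rw [Finset.card_insert_of_notMem (by simp [haa', n1, n2]),
          Finset.card_insert_of_notMem (by simp [n3, n4]),
          Finset.card_insert_of_notMem (by simp [hxy]), Finset.card_singleton]
      have := Finset.card_le_card hsub
      omega
    -- choice of the colour
    obtain ⟨k, hk, hkk⟩ : ∃ k : Fin 3, k ≠ φ a ∧ ∀ x ∈ T, ∀ y ∈ T, φ x = φ a → φ y = φ a →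
        s x → ¬ s y → r (-(φ a + k)) x < r (-(φ a + k)) y := by
      have key : ∀ b ∈ T, ∀ b' ∈ T, b ≠ b' → φ b = φ a → φ b' = φ a →
          ∃ k : Fin 3, k ≠ φ a ∧ r (-(φ a + k)) b < r (-(φ a + k)) b' := by
        intro b hb b' hb' hbb' e e'
        have e1 : -(φ a + (φ a + 2)) = φ a + 1 := by
          generalize φ a = i; revert i; decide
        have e2 : -(φ a + (φ a + 1)) = φ a + 2 := by
          generalize φ a = i; revert i; decide
        have e3 : φ a + 2 ≠ φ a := by
          generalize φ a = i; revert i; decide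
        have e4 : φ a + 1 ≠ φ a := by
          generalize φ a = i; revert i; decide
        rcases h2 b hb b' hb' hbb' (e.trans e'.symm) with h | h
        · rw [e] at h
          exact ⟨φ a + 2, e3, by rw [e1]; exact h.1⟩
        · rw [e] at h
          exact ⟨φ a + 1, e4, by rw [e2]; exact h.2⟩
      by_cases hs : s a ∧ ¬ s a'
      · obtain ⟨k, hk, hlt⟩ := key a ha a' ha' haa' rfl hφ.symm
        refine ⟨k, hk, ?_⟩
        intro x hx y hy ex ey sx sy
        rcases hi x hx ex with h | h <;> rcases hi y hy ey with h' | h'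
        · rw [h] at sx; rw [h'] at sy; exact absurd sx sy
        · rw [h, h']; exact hlt
        · rw [h'] at sy; exact absurd hs.1 sy
        · rw [h] at sx; rw [h'] at sy; exact absurd sx sy
      · obtain ⟨k, hk, hlt⟩ := key a' ha' a ha (Ne.symm haa') hφ.symm rfl
        refine ⟨k, hk, ?_⟩
        intro x hx y hy ex ey sx sy
        rcases hi x hx ex with h | h <;> rcases hi y hy ey with h' | h'
        · rw [h] at sx; rw [h'] at sy; exact absurd sx sy
        · rw [h] at sx; rw [h'] at sy; exact absurd ⟨sx, sy⟩ hs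
        · rw [h, h']; exact hlt
        · rw [h] at sx; rw [h'] at sy; exact absurd sx sy
    let l0 : Fin 3 := -(φ a + k)
    let U : Prop := ∀ b ∈ T, φ b = k → ∀ y ∈ T, φ y = φ a → ¬ s y → r l0 b < r l0 y
    refine ⟨k, fun l => if l = l0 then U else ¬ U, ?_, ?_, ?_, ?_, ?_⟩
    · have : (k + 1 = l0 ∧ k + 2 ≠ l0) ∨ (k + 1 ≠ l0 ∧ k + 2 = l0) := by
        show (k + 1 = -(φ a + k) ∧ k + 2 ≠ -(φ a + k)) ∨ (k + 1 ≠ -(φ a + k) ∧ k + 2 = -(φ a + k))
        revert hk; generalize φ a = i; clear * -; revert i k; decide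
      rcases this with ⟨h, h'⟩ | ⟨h, h'⟩
      · simp only [if_pos h, if_neg h', not_not]
      · simp only [if_neg h, if_pos h']
    · intro x hx y hy ex ey
      exact hni x hx y hy (by rw [ex]; exact hk) (by rw [ey]; exact hk)
    · intro x hx y hy exy exk sx sy
      by_cases hxa : φ x = φ a
      · rw [hxa]
        exact hkk x hx y hy hxa (exy ▸ hxa) sx sy
      · have := hni x hx y hy hxa (by rw [← exy]; exact hxa)
        rw [this] at sx
        exact absurd sx sy
    · intro x hx y hy exk eyk sx hup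
      by_cases hxa : φ x = φ a
      · rw [hxa] at hup ⊢
        have hup' : ¬ U := by simpa [l0] using hup
        have : ∃ b ∈ T, φ b = k ∧ ∃ y' ∈ T, φ y' = φ a ∧ ¬ s y' ∧ ¬ r l0 b < r l0 y' := by
          by_contra hcon
          push Not at hcon
          exact hup' (fun b hb hbk y' hy' e hs => hcon b hb hbk y' hy' e hs)
        obtain ⟨b, hb, hbk, y', hy', ey', sy', hlt⟩ := this
        have hby : b = y := hni b hb y hy (by rw [hbk]; exact hk) (by rw [eyk]; exact hk)
        rw [hby] at hlt
        have hne : r l0 y' ≠ r l0 y := by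
          have := h1 y' hy' y hy (by rw [ey', eyk]; exact Ne.symm hk)
          rw [ey', eyk] at this
          exact this
        have hxy' := hkk x hx y' hy' hxa ey' sx sy'
        have : r l0 y' < r l0 y := lt_of_le_of_ne (not_lt.mp hlt) hne
        exact lt_trans hxy' this
      · have := hni x hx y hy hxa (by rw [eyk]; exact hk)
        rw [this] at exk
        exact absurd eyk exk
    · intro x hx y hy exk eyk sx hup
      by_cases hxa : φ x = φ a
      · rw [hxa] at hup ⊢
        have hup' : U := by simpa [l0] using hup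
        exact hup' y hy eyk x hx hxa sx
      · have := hni x hx y hy hxa (by rw [eyk]; exact hk)
        rw [this] at exk
        exact absurd eyk exk
  · push Not at hdup
    have huniq : ∀ x ∈ T, ∀ y ∈ T, φ x = φ y → x = y := by
      intro x hx y hy e
      by_contra hxy
      exact hdup x hx y hy hxy e
    by_cases hex : ∃ k, ∀ x ∈ T, φ x ≠ k
    · obtain ⟨k, hk⟩ := hex
      refine ⟨k, fun l => l = k + 1, ?_, ?_, ?_, ?_, ?_⟩
      · clear * -; revert k; decide
      · intro x hx y hy ex; exact absurd ex (hk x hx)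
      · intro x hx y hy exy _ sx sy
        rw [huniq x hx y hy exy] at sx
        exact absurd sx sy
      · intro x hx y hy _ ey; exact absurd ey (hk y hy)
      · intro x hx y hy _ ey; exact absurd ey (hk y hy)
    · push Not at hex
      choose x hxT hxφ using hex
      have hx : ∀ y ∈ T, y = x (φ y) := fun y hy => huniq y hy _ (hxT _) (hxφ _).symm
      have ht : ∀ i k : Fin 3, i ≠ k → decide (r (-(k + i)) (x k) < r (-(k + i)) (x i)) =
          !decide (r (-(i + k)) (x i) < r (-(i + k)) (x k)) := by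
        intro i k hik
        have hne := h1 (x i) (hxT i) (x k) (hxT k) (by rw [hxφ, hxφ]; exact hik)
        rw [hxφ, hxφ] at hne
        rw [add_comm k i]
        rcases lt_or_gt_of_ne hne with h | h
        · rw [decide_eq_true h, decide_eq_false (not_lt.mpr h.le)]; rfl
        · rw [decide_eq_true h, decide_eq_false (not_lt.mpr h.le)]; rfl
      obtain ⟨k, up, hup, hmain⟩ := rainbow_choice' (fun i => decide (s (x i)))
        (fun i k => decide (r (-(i + k)) (x i) < r (-(i + k)) (x k))) ht
      refine ⟨k, fun l => up l = true, ?_, ?_, ?_, ?_, ?_⟩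
      · show (up (k + 1) = true ↔ ¬ up (k + 2) = true)
        rcases Bool.eq_false_or_eq_true (up (k + 1)) with h | h <;>
          rcases Bool.eq_false_or_eq_true (up (k + 2)) with h' | h' <;>
          simp [h, h'] at hup ⊢
      · intro y hy z hz ey ez; exact huniq y hy z hz (ey.trans ez.symm)
      · intro y hy z hz eyz _ sy sz
        rw [huniq y hy z hz eyz] at sy
        exact absurd sy sz
      · intro y hy z hz ey ez sy hu
        have h := (hmain (φ y) ey).1 (by rw [← hx y hy]; exact decide_eq_true sy)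
          (by simpa using hu)
        have h' := of_decide_eq_true h
        rw [← hx y hy, ← ez, ← hx z hz, ez] at h'
        exact h'
      · intro y hy z hz ey ez sy hu
        have h := (hmain (φ y) ey).2 (by rw [← hx y hy]; exact decide_eq_false sy) hu
        have h' := of_decide_eq_false h
        rw [← hx y hy, ← ez, ← hx z hz, ez] at h'
        refine lt_of_le_of_ne (not_lt.mp h') ?_
        have hne := h1 y hy z hz (by rw [ez]; exact ey)
        rw [ez] at hne
        exact Ne.symm hne

theorem choose_q {V : Type*} (T : Finset V) (hT : T.card ≤ 3) (φ : V → Fin 3)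
    (r : Fin 3 → V → ℚ) (s : V → Prop)
    (h1 : ∀ x ∈ T, ∀ y ∈ T, φ x ≠ φ y → r (-(φ x + φ y)) x ≠ r (-(φ x + φ y)) y)
    (h2 : ∀ x ∈ T, ∀ y ∈ T, x ≠ y → φ x = φ y →
      (r (φ x + 1) x < r (φ x + 1) y ∧ r (φ x + 2) y < r (φ x + 2) x) ∨
      (r (φ x + 1) y < r (φ x + 1) x ∧ r (φ x + 2) x < r (φ x + 2) y))
    (h3 : ∀ x ∈ T, ∀ y ∈ T, ∀ z ∈ T, x ≠ y → y ≠ z → x ≠ z → φ x = φ y → φ y ≠ φ z) :
    ∃ (k : Fin 3) (q : Fin 3 → ℚ),
      (∀ x ∈ T, ∀ y ∈ T, φ x = k → φ y = k → x = y) ∧
      (∀ x ∈ T, φ x ≠ k → s x → r (-(φ x + k)) x < q (-(φ x + k))) ∧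
      (∀ x ∈ T, φ x ≠ k → ¬ s x → q (-(φ x + k)) < r (-(φ x + k)) x) ∧
      (∀ x ∈ T, φ x = k → (r (k + 1) x < q (k + 1) ∧ q (k + 2) < r (k + 2) x) ∨
        (q (k + 1) < r (k + 1) x ∧ r (k + 2) x < q (k + 2))) := by
  classical
  obtain ⟨k, up, hup, huniq, c1, c2, c3⟩ := choose_step T hT φ r s h1 h2 h3
  have hq : ∀ l : Fin 3, ∃ q : ℚ,
      (∀ x ∈ T, ((φ x ≠ k ∧ -(φ x + k) = l ∧ s x) ∨ (φ x = k ∧ up l)) → r l x < q) ∧
      (∀ x ∈ T, ((φ x ≠ k ∧ -(φ x + k) = l ∧ ¬ s x) ∨ (φ x = k ∧ ¬ up l)) → q < r l x) := by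
    intro l
    have hc : ∀ x ∈ T, ∀ y ∈ T, ((φ x ≠ k ∧ -(φ x + k) = l ∧ s x) ∨ (φ x = k ∧ up l)) →
        ((φ y ≠ k ∧ -(φ y + k) = l ∧ ¬ s y) ∨ (φ y = k ∧ ¬ up l)) → r l x < r l y := by
      intro x hx y hy hxc hyc
      rcases hxc with ⟨e1, e2, e3⟩ | ⟨e1, e2⟩ <;> rcases hyc with ⟨f1, f2, f3⟩ | ⟨f1, f2⟩
      · have hxy : φ x = φ y := by
          have := e2.trans f2.symm
          revert this
          generalize φ x = i
          generalize φ y = j
          clear * -
          revert i j k; decide
        have := c1 x hx y hy hxy e1 e3 f3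
        rw [e2] at this
        exact this
      · have := c2 x hx y hy e1 f1 e3 (by rw [e2]; exact f2)
        rw [e2] at this
        exact this
      · have := c3 y hy x hx f1 e1 f3 (by rw [f2]; exact e2)
        rw [f2] at this
        exact this
      · exact absurd e2 f2
    obtain ⟨q, hq1, hq2⟩ := Order.exists_between_finsets
      ((T.filter (fun x => (φ x ≠ k ∧ -(φ x + k) = l ∧ s x) ∨ (φ x = k ∧ up l))).image (r l))
      ((T.filter (fun x => (φ x ≠ k ∧ -(φ x + k) = l ∧ ¬ s x) ∨ (φ x = k ∧ ¬ up l))).image (r l))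
      (by
        intro x hx y hy
        simp only [Finset.mem_image, Finset.mem_filter] at hx hy
        obtain ⟨x', ⟨hx1, hx2⟩, rfl⟩ := hx
        obtain ⟨y', ⟨hy1, hy2⟩, rfl⟩ := hy
        exact hc x' hx1 y' hy1 hx2 hy2)
    refine ⟨q, ?_, ?_⟩
    · intro x hx hxc
      exact hq1 _ (Finset.mem_image_of_mem _ (Finset.mem_filter.mpr ⟨hx, hxc⟩))
    · intro x hx hxc
      exact hq2 _ (Finset.mem_image_of_mem _ (Finset.mem_filter.mpr ⟨hx, hxc⟩))
  choose q hq1 hq2 using hq
  refine ⟨k, q, huniq, ?_, ?_, ?_⟩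
  · intro x hx e sx
    exact hq1 _ x hx (Or.inl ⟨e, rfl, sx⟩)
  · intro x hx e sx
    exact hq2 _ x hx (Or.inl ⟨e, rfl, sx⟩)
  · intro x hx e
    by_cases hu : up (k + 1)
    · left
      exact ⟨hq1 _ x hx (Or.inr ⟨e, hu⟩), hq2 _ x hx (Or.inr ⟨e, hup.mp hu⟩)⟩
    · right
      have hu2 : up (k + 2) := by
        by_contra h
        exact hu (hup.mpr h)
      exact ⟨hq2 _ x hx (Or.inr ⟨e, hu⟩), hq1 _ x hx (Or.inr ⟨e, hu2⟩)⟩

/-- The invariant for the vertices `v` with `ord v < N`. -/
structure Inv {V : Type*} (B : V → V → Prop) (H : SimpleGraph V) (ord : V → ℕ) (N : ℕ)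
    (φ : V → Fin 3) (r : Fin 3 → V → ℚ) : Prop where
  arc : ∀ u v, ord u < N → ord v < N → B u v → φ u ≠ φ v →
    r (-(φ u + φ v)) u < r (-(φ u + φ v)) v
  mono : ∀ u v, ord u < N → ord v < N → H.Adj u v → φ u = φ v →
    (r (φ u + 1) u < r (φ u + 1) v ∧ r (φ u + 2) v < r (φ u + 2) u) ∨
    (r (φ u + 1) v < r (φ u + 1) u ∧ r (φ u + 2) u < r (φ u + 2) v)
  tri : ∀ u v w, ord u < N → ord v < N → ord w < N → H.Adj u v → H.Adj v w → H.Adj u w →
    φ u = φ v → φ v ≠ φ w

theorem exists_inv {V : Type*} (B : V → V → Prop) (H : SimpleGraph V) (ord : V → ℕ)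
    (hord : Function.Injective ord)
    (hB : ∀ u v, B u v → ¬ B v u) (hBH : ∀ u v, B u v → H.Adj u v)
    (hHB : ∀ u v, H.Adj u v → B u v ∨ B v u)
    (hcl : ∀ v, H.IsClique {u | H.Adj u v ∧ ord u < ord v})
    (hfin : ∀ v, {u | H.Adj u v ∧ ord u < ord v}.Finite)
    (hcard : ∀ v, {u | H.Adj u v ∧ ord u < ord v}.ncard ≤ 3) (N : ℕ) :
    ∃ (φ : V → Fin 3) (r : Fin 3 → V → ℚ), Inv B H ord N φ r := by
  classical
  induction N with
  | zero =>
    exact ⟨fun _ => 0, fun _ _ => 0, ⟨fun u v hu => absurd hu (Nat.not_lt_zero _),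
      fun u v hu => absurd hu (Nat.not_lt_zero _), fun u v w hu => absurd hu (Nat.not_lt_zero _)⟩⟩
  | succ N ih =>
    obtain ⟨φ, r, hinv⟩ := ih
    by_cases hv : ∃ v, ord v = N
    · obtain ⟨v, hv⟩ := hv
      set T : Finset V := (hfin v).toFinset with hT
      have hTmem : ∀ x, x ∈ T ↔ H.Adj x v ∧ ord x < N := by
        intro x
        rw [hT, Set.Finite.mem_toFinset, Set.mem_ofPred_eq, hv]
      have hTcard : T.card ≤ 3 := by
        rw [hT, ← Set.ncard_eq_toFinset_card _ (hfin v)]
        exact hcard v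
      have hTadj : ∀ x ∈ T, ∀ y ∈ T, x ≠ y → H.Adj x y := by
        intro x hx y hy hxy
        have hx' := (hTmem x).mp hx
        have hy' := (hTmem y).mp hy
        exact hcl v ⟨hx'.1, by rw [hv]; exact hx'.2⟩ ⟨hy'.1, by rw [hv]; exact hy'.2⟩ hxy
      obtain ⟨k, q, huniq, g1, g2, g3⟩ := choose_q T hTcard φ r (fun x => B x v)
        (by
          intro x hx y hy hxy
          have hne : x ≠ y := fun h => hxy (by rw [h])
          rcases hHB x y (hTadj x hx y hy hne) with h | h
          · exact ne_of_lt (hinv.arc x y ((hTmem x).mp hx).2 ((hTmem y).mp hy).2 h hxy)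
          · have := hinv.arc y x ((hTmem y).mp hy).2 ((hTmem x).mp hx).2 h (Ne.symm hxy)
            rw [add_comm (φ y) (φ x)] at this
            exact ne_of_gt this)
        (by
          intro x hx y hy hne hxy
          exact hinv.mono x y ((hTmem x).mp hx).2 ((hTmem y).mp hy).2 (hTadj x hx y hy hne) hxy)
        (by
          intro x hx y hy z hz hxy hyz hxz e
          exact hinv.tri x y z ((hTmem x).mp hx).2 ((hTmem y).mp hy).2 ((hTmem z).mp hz).2
            (hTadj x hx y hy hxy) (hTadj y hy z hz hyz) (hTadj x hx z hz hxz) e)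
      refine ⟨Function.update φ v k, fun l => Function.update (r l) v (q l), ?_⟩
      have hold : ∀ u, ord u < N → u ≠ v := by
        intro u hu h
        rw [h, hv] at hu
        exact lt_irrefl _ hu
      have hcase : ∀ u, ord u < N + 1 → u = v ∨ ord u < N := by
        intro u hu
        rcases Nat.lt_succ_iff_lt_or_eq.mp hu with h | h
        · right; exact h
        · left; exact hord (h.trans hv.symm)
      have φv : Function.update φ v k v = k := Function.update_self ..
      have φu : ∀ u, ord u < N → Function.update φ v k u = φ u := fun u hu =>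
        Function.update_of_ne (hold u hu) ..
      have rv : ∀ l, Function.update (r l) v (q l) v = q l := fun l => Function.update_self ..
      have ru : ∀ l u, ord u < N → Function.update (r l) v (q l) u = r l u := fun l u hu =>
        Function.update_of_ne (hold u hu) ..
      refine ⟨?_, ?_, ?_⟩
      · intro u w hu hw hB' hne
        rcases hcase u hu with rfl | hu' <;> rcases hcase w hw with rfl | hw'
        · exact absurd rfl hne
        · have hwT : w ∈ T := (hTmem w).mpr ⟨(hBH _ _ hB').symm, hw'⟩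
          simp only [φv, φu w hw', rv, ru _ w hw'] at hne ⊢
          have := g2 w hwT (Ne.symm hne) (hB _ _ hB')
          rw [add_comm (φ w) k] at this
          exact this
        · have huT : u ∈ T := (hTmem u).mpr ⟨hBH _ _ hB', hu'⟩
          simp only [φv, φu u hu', rv, ru _ u hu'] at hne ⊢
          exact g1 u huT hne hB'
        · simp only [φu u hu', φu w hw', ru _ u hu', ru _ w hw'] at hne ⊢
          exact hinv.arc u w hu' hw' hB' hne
      · intro u w hu hw hadj heq
        rcases hcase u hu with rfl | hu' <;> rcases hcase w hw with rfl | hw'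
        · exact absurd hadj (H.irrefl)
        · have hwT : w ∈ T := (hTmem w).mpr ⟨hadj.symm, hw'⟩
          simp only [φv, φu w hw', rv, ru _ w hw'] at heq ⊢
          rcases g3 w hwT heq.symm with h | h
          · right; exact h
          · left; exact h
        · have huT : u ∈ T := (hTmem u).mpr ⟨hadj, hu'⟩
          simp only [φv, φu u hu', rv, ru _ u hu'] at heq ⊢
          rw [heq]
          exact g3 u huT heq
        · simp only [φu u hu', φu w hw', ru _ u hu', ru _ w hw'] at heq ⊢
          exact hinv.mono u w hu' hw' hadj heq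
      · intro a b c ha hb hc hab hbc hac e
        have key : ∀ x y, ord x < N → ord y < N → H.Adj x v → H.Adj y v → H.Adj x y →
            φ x = k → φ y = k → False := by
          intro x y hx hy hxv hyv hxy ex ey
          have := huniq x ((hTmem x).mpr ⟨hxv, hx⟩) y ((hTmem y).mpr ⟨hyv, hy⟩) ex ey
          exact hxy.ne this
        rcases hcase a ha with rfl | ha'
        · have hb' : ord b < N := by
            rcases hcase b hb with rfl | h
            · exact absurd hab (H.irrefl)
            · exact h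
          have hc' : ord c < N := by
            rcases hcase c hc with rfl | h
            · exact absurd hac (H.irrefl)
            · exact h
          rw [φv, φu b hb'] at e
          rw [φu b hb', φu c hc']
          intro e'
          exact key b c hb' hc' hab.symm hac.symm hbc e.symm (e'.symm.trans e.symm)
        · rcases hcase b hb with rfl | hb'
          · have hc' : ord c < N := by
              rcases hcase c hc with rfl | h
              · exact absurd hbc (H.irrefl)
              · exact h
            rw [φv, φu a ha'] at e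
            rw [φv, φu c hc']
            intro e'
            exact key a c ha' hc' hab hbc.symm hac e e'.symm
          · rcases hcase c hc with rfl | hc'
            · rw [φu a ha', φu b hb'] at e
              rw [φv, φu b hb']
              intro e'
              exact key a b ha' hb' hac hbc hab (e.trans e') e'
            · rw [φu a ha', φu b hb'] at e
              rw [φu b hb', φu c hc']
              exact hinv.tri a b c ha' hb' hc' hab hbc hac e
    · refine ⟨φ, r, ?_⟩
      have hlt : ∀ u, ord u < N + 1 → ord u < N := by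
        intro u hu
        rcases Nat.lt_succ_iff_lt_or_eq.mp hu with h | h
        · exact h
        · exact absurd ⟨u, h⟩ hv
      exact ⟨fun u v hu hv' => hinv.arc u v (hlt u hu) (hlt v hv'),
        fun u v hu hv' => hinv.mono u v (hlt u hu) (hlt v hv'),
        fun u v w hu hv' hw => hinv.tri u v w (hlt u hu) (hlt v hv') (hlt w hw)⟩

theorem dicolouring_of_inv {V : Type*} (A B : V → V → Prop) (H : SimpleGraph V) (ord : V → ℕ)
    (hord : Function.Injective ord) (hAB : ∀ u v, A u v → B u v)
    (hBH : ∀ u v, B u v → H.Adj u v)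
    (hcl : ∀ v, H.IsClique {u | H.Adj u v ∧ ord u < ord v}) (N : ℕ) (hN : ∀ v, ord v < N)
    (φ : V → Fin 3) (r : Fin 3 → V → ℚ) (hinv : Inv B H ord N φ r) :
    IsAcyclicDicolouring A 3 φ := by
  intro m c hc
  obtain ⟨hm, hinj, harc, hlast⟩ := hc
  constructor
  · rintro ⟨i, hi⟩
    -- a vertex of the cycle of largest order
    obtain ⟨t, ht, hmax⟩ := Finset.exists_max_image (Finset.range m) (fun t => ord (c t))
      ⟨0, Finset.mem_range.mpr (by omega)⟩
    rw [Finset.mem_range] at ht
    have hmax' : ∀ s, s < m → s ≠ t → ord (c s) < ord (c t) := by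
      intro s hs hst
      refine lt_of_le_of_ne (hmax s (Finset.mem_range.mpr hs)) ?_
      intro h
      exact hst (hinj s hs t ht (hord h))
    -- the two neighbours on the cycle
    obtain ⟨p, hp, hpt, hpA⟩ : ∃ p, p < m ∧ p ≠ t ∧ A (c p) (c t) ∧
        (t = 0 → p = m - 1) ∧ (t ≠ 0 → p = t - 1) := by
      rcases Nat.eq_zero_or_pos t with h | h
      · refine ⟨m - 1, by omega, by omega, ?_, fun _ => rfl, fun h' => absurd h h'⟩
        rw [h]; exact hlast
      · refine ⟨t - 1, by omega, by omega, ?_, fun h' => absurd h' (by omega), fun _ => rfl⟩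
        have := harc (t - 1) (by omega)
        rwa [Nat.sub_add_cancel h] at this
    obtain ⟨n, hn, hnt, hnA⟩ : ∃ n, n < m ∧ n ≠ t ∧ A (c t) (c n) ∧
        (t = m - 1 → n = 0) ∧ (t ≠ m - 1 → n = t + 1) := by
      by_cases h : t = m - 1
      · refine ⟨0, by omega, by omega, ?_, fun _ => rfl, fun h' => absurd h h'⟩
        rw [h]; exact hlast
      · exact ⟨t + 1, by omega, by omega, harc t (by omega), fun h' => absurd h' h, fun _ => rfl⟩
    have hpn : p ≠ n := by
      obtain ⟨-, h1, h2⟩ := hpA
      obtain ⟨-, h3, h4⟩ := hnA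
      by_cases e1 : t = 0
      · have := h1 e1
        have := h4 (by omega)
        omega
      · have := h2 e1
        by_cases e2 : t = m - 1
        · have := h3 e2
          omega
        · have := h4 e2
          omega
    have a1 : H.Adj (c p) (c t) := hBH _ _ (hAB _ _ hpA.1)
    have a2 : H.Adj (c t) (c n) := hBH _ _ (hAB _ _ hnA.1)
    have hne : c p ≠ c n := fun h => hpn (hinj p hp n hn h)
    have a3 : H.Adj (c p) (c n) := hcl (c t) ⟨a1, hmax' p hp hpt⟩ ⟨a2.symm, hmax' n hn hnt⟩ hne
    exact hinv.tri (c p) (c t) (c n) (hN _) (hN _) (hN _) a1 a2 a3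
      (by rw [hi p hp, hi t ht]) (by rw [hi t ht, hi n hn])
  · rintro ⟨hev, i, j, hij, hcol⟩
    have hji : φ (c 0) = i := by
      have := hcol 0 (by omega)
      simpa using this
    have step : ∀ t, t + 1 < m → r (-(i + j)) (c t) < r (-(i + j)) (c (t + 1)) := by
      intro t ht
      have e1 := hcol t (by omega)
      have e2 := hcol (t + 1) ht
      by_cases h : Even t
      · have h' : ¬ Even (t + 1) := by
          rw [Nat.even_add_one]; exact not_not.mpr h
        rw [if_pos h] at e1
        rw [if_neg h'] at e2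
        have := hinv.arc (c t) (c (t + 1)) (hN _) (hN _) (hAB _ _ (harc t ht))
          (by rw [e1, e2]; exact hij)
        rw [e1, e2] at this
        exact this
      · have h' : Even (t + 1) := by
          rw [Nat.even_add_one]; exact h
        rw [if_neg h] at e1
        rw [if_pos h'] at e2
        have := hinv.arc (c t) (c (t + 1)) (hN _) (hN _) (hAB _ _ (harc t ht))
          (by rw [e1, e2]; exact Ne.symm hij)
        rw [e1, e2, add_comm j i] at this
        exact this
    have hle : ∀ t, t < m → r (-(i + j)) (c 0) ≤ r (-(i + j)) (c t) := by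
      intro t
      induction t with
      | zero => intro _; exact le_refl _
      | succ t ih =>
        intro ht
        exact (ih (by omega)).trans (step t ht).le
    have hodd : ¬ Even (m - 1) := by
      intro h
      rcases hev with ⟨a, ha⟩
      rcases h with ⟨b, hb⟩
      omega
    have e1 := hcol (m - 1) (by omega)
    rw [if_neg hodd] at e1
    have := hinv.arc (c (m - 1)) (c 0) (hN _) (hN _) (hAB _ _ hlast)
      (by rw [e1, hji]; exact Ne.symm hij)
    rw [e1, hji, add_comm j i] at this
    exact absurd (hle (m - 1) (by omega)) (not_le.mpr this)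

/-- Every finite oriented graph (no loops, no 2-cycles) whose underlying graph has treewidth at
most 3 has an acyclic 3-dicolouring. -/
theorem result :
    ∀ (V : Type) [Finite V] (A : V → V → Prop), (∀ u v, A u v → ¬ A v u) →
      ∀ G : SimpleGraph V, (∀ u v, A u v → G.Adj u v) → TreewidthAtMost G 3 →
        ∃ φ : V → Fin 3, IsAcyclicDicolouring A 3 φ := by
  classical
  intro V _ A hA G hAG htw
  obtain ⟨H, ord, hGH, hord, hcond⟩ := htw
  let B : V → V → Prop := fun u v => A u v ∨ (H.Adj u v ∧ ¬ A u v ∧ ¬ A v u ∧ ord u < ord v)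
  have hAB : ∀ u v, A u v → B u v := fun u v h => Or.inl h
  have hBH : ∀ u v, B u v → H.Adj u v := by
    intro u v h
    rcases h with h | h
    · exact hGH (hAG u v h)
    · exact h.1
  have hB : ∀ u v, B u v → ¬ B v u := by
    intro u v h h'
    rcases h with h | ⟨-, h1, h2, h3⟩ <;> rcases h' with h' | ⟨-, h1', h2', h3'⟩
    · exact hA u v h h'
    · exact h2' h
    · exact h2 h'
    · omega
  have hHB : ∀ u v, H.Adj u v → B u v ∨ B v u := by
    intro u v h
    by_cases h1 : A u v
    · exact Or.inl (Or.inl h1)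
    · by_cases h2 : A v u
      · exact Or.inr (Or.inl h2)
      · rcases Nat.lt_trichotomy (ord u) (ord v) with h3 | h3 | h3
        · exact Or.inl (Or.inr ⟨h, h1, h2, h3⟩)
        · exact absurd (hord h3) h.ne
        · exact Or.inr (Or.inr ⟨h.symm, h2, h1, h3⟩)
  obtain ⟨N, hN⟩ : ∃ N, ∀ v, ord v < N := by
    have hf : (Set.range ord).Finite := Set.finite_range ord
    obtain ⟨M, hM⟩ := hf.bddAbove
    exact ⟨M + 1, fun v => Nat.lt_succ_of_le (hM ⟨v, rfl⟩)⟩
  obtain ⟨φ, r, hinv⟩ := exists_inv B H ord hord hB hBH hHB (fun v => (hcond v).1)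
    (fun v => (hcond v).2.1) (fun v => (hcond v).2.2) N
  exact ⟨φ, dicolouring_of_inv A B H ord hord hAB hBH (fun v => (hcond v).1) N hN φ r hinv⟩

end Pool.Agent.Results.MP_da50b6_co.TreewidthThree
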